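import Pool.Agent.Helper41.LD4.Defs
import Pool.Agent.Helper23.LD3.TA

/-!
# Block TM2 of LD4: powers of a generator with a rational power are far from the rational numbers
-/

set_option autoImplicit false

namespace Pool.Agent.Helper23.LD4

open Set Filter Topology Polynomial
open Pool.Agent.Helper41.LD (Dioph)
open Pool.Agent.Helper41.LD4 (RatGen Ty)

/-- Liouville's inequality for a power of the generator -/
theorem liou {τ : ℝ} {r p q : ℕ} (h : RatGen τ r p q) {i : ℕ} (hi : ¬ r ∣ i) :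
    ∃ A : ℝ, 0 < A ∧ ∀ a : ℤ, ∀ b : ℕ, 1 ≤ b → 1 ≤ (b : ℝ) ^ r * (|τ ^ i - a / b| * A) := by
  set f : ℤ[X] := C ((q : ℤ) ^ i) * X ^ r - C ((p : ℤ) ^ i) with hf
  have hq0 : ((q : ℤ) ^ i) ≠ 0 := pow_ne_zero _ (by have := h.hq; omega)
  have hdeg : f.natDegree = r := by
    rw [hf, natDegree_sub_C, natDegree_C_mul_X_pow _ _ hq0]
  have hf0 : f ≠ 0 := by
    intro h0
    rw [h0, natDegree_zero] at hdeg
    have := h.hr
    omega
  have hroot : eval (τ ^ i) (map (algebraMap ℤ ℝ) f) = 0 := by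
    have hqr : (q : ℝ) ≠ 0 := by
      have := h.hq
      positivity
    have h1 : (τ ^ i) ^ r = ((p : ℝ) / q) ^ i := by
      rw [← h.pow, ← pow_mul, ← pow_mul, mul_comm]
    rw [hf]
    simp only [Polynomial.map_sub, Polynomial.map_mul, Polynomial.map_pow, map_C, map_X, eval_sub, eval_mul, eval_pow, eval_C,
      eval_X, h1]
    rw [div_pow]
    have hqi : (q : ℝ) ^ i ≠ 0 := pow_ne_zero _ hqr
    simp only [eq_intCast]
    push_cast
    rw [mul_div_cancel₀ _ hqi, sub_self]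
  obtain ⟨A, hA, h2⟩ := Liouville.exists_pos_real_of_irrational_root (h.irr i hi) hf0 hroot
  refine ⟨A, hA, fun a b hb => ?_⟩
  have h3 := h2 a (b - 1)
  have h4 : (((b - 1 : ℕ) : ℝ) + 1) = b := by
    have : ((b - 1 : ℕ) : ℝ) = b - 1 := by
      rw [Nat.cast_sub hb]
      simp
    rw [this]
    ring
  rw [h4, hdeg] at h3
  exact h3

theorem far_rat {τ : ℝ} {r p q : ℕ} (hτ : 1 < τ) (h : RatGen τ r p q) : ∃ D : ℝ, 0 < D ∧ ∀ K : ℕ, 1 ≤ K → ∀ d : ℕ,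
    ¬ r ∣ d → τ ^ d < 2 ^ (12 * K) → ∀ Q : ℕ, 1 ≤ Q → Q ≤ 2 ^ (12 * K + 3) → ∀ P : ℤ,
      Real.exp (-(D * (K : ℝ))) ≤ |Q * τ ^ d - P| := by
  have hr := h.hr
  have hq := h.hq
  have hpq := h.hpq
  have hAex : ∀ i : ℕ, ∃ A : ℝ, 0 < A ∧ (¬ r ∣ i → ∀ a : ℤ, ∀ b : ℕ, 1 ≤ b → 1 ≤ (b : ℝ) ^ r * (|τ ^ i - a / b| * A)) := by
    intro i
    by_cases hi : r ∣ i
    · exact ⟨1, one_pos, fun h1 => absurd hi h1⟩
    · obtain ⟨A, hA, h1⟩ := liou h hi
      exact ⟨A, hA, fun _ => h1⟩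
  choose A hA hAl using hAex
  set AA : ℝ := 1 + ∑ i ∈ Finset.range r, A i with hAA
  have hAAi : ∀ i < r, A i ≤ AA := by
    intro i hi
    have h1 : A i ≤ ∑ i ∈ Finset.range r, A i := Finset.single_le_sum (fun i _ => (hA i).le) (Finset.mem_range.2 hi)
    linarith
  have hAA1 : 1 ≤ AA := by
    have : 0 ≤ ∑ i ∈ Finset.range r, A i := Finset.sum_nonneg fun i _ => (hA i).le
    linarith
  have hlt : 0 < Real.log τ := Real.log_pos hτ
  have hl2' : Real.log 2 ≤ 1 := by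
    have := Real.log_two_lt_d9
    linarith
  have hp1 : (1 : ℝ) ≤ p := by
    have : 1 ≤ p := by omega
    exact_mod_cast this
  have hlp : 0 ≤ Real.log p := Real.log_nonneg hp1
  have hlA : 0 ≤ Real.log AA := Real.log_nonneg hAA1
  set R : ℝ := 12 / Real.log τ with hR
  have hR0 : 0 < R := by positivity
  have hr0 : (1 : ℝ) ≤ r := by exact_mod_cast hr
  refine ⟨r * (15 + R * Real.log p) + Real.log AA, by positivity, ?_⟩
  intro K hK d hrd hdl Q hQ1 hQ2 P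
  have hK1 : (1 : ℝ) ≤ K := by exact_mod_cast hK
  have hτ0 : 0 < τ := by linarith
  set i : ℕ := d % r with hi
  set j : ℕ := d / r with hj
  have hdij : d = r * j + i := (Nat.div_add_mod d r).symm
  have hir : i < r := Nat.mod_lt _ hr
  have hri : ¬ r ∣ i := by
    intro h1
    apply hrd
    rw [hdij]
    exact dvd_add (dvd_mul_right _ _) h1
  have hdR : (d : ℝ) ≤ R * K := by
    have h1 : (d : ℝ) * Real.log τ ≤ 12 * K * Real.log 2 := by
      have h2 := Real.log_le_log (by positivity) hdl.le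
      rw [Real.log_pow, Real.log_pow] at h2
      push_cast at h2
      exact h2
    have h2 : 12 * (K : ℝ) * Real.log 2 ≤ 12 * K := by nlinarith
    rw [hR, div_mul_eq_mul_div, le_div_iff₀ hlt]
    linarith
  have hjR : (j : ℝ) ≤ R * K := by
    have : j ≤ d := Nat.div_le_self _ _
    have : (j : ℝ) ≤ d := by exact_mod_cast this
    linarith
  have hqr : (1 : ℝ) ≤ q := by exact_mod_cast hq
  have hQr : (1 : ℝ) ≤ Q := by exact_mod_cast hQ1
  have hb1 : 1 ≤ Q * p ^ j := Nat.mul_pos hQ1 (Nat.pow_pos (by omega))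
  have hL := hAl i hri (P * (q : ℤ) ^ j) (Q * p ^ j) hb1
  have hbR : (1 : ℝ) ≤ (Q : ℝ) * (p : ℝ) ^ j := by exact_mod_cast hb1
  have hb0 : (0 : ℝ) < (Q : ℝ) * (p : ℝ) ^ j := by linarith
  have hqj : (0 : ℝ) < (q : ℝ) ^ j := by positivity
  have hpj : (0 : ℝ) < (p : ℝ) ^ j := by positivity
  have hτd : τ ^ d = ((p : ℝ) / q) ^ j * τ ^ i := by
    rw [← h.pow, ← pow_mul, ← pow_add, ← hdij]
  have hid : Q * τ ^ d - P = ((Q : ℝ) * (p : ℝ) ^ j / (q : ℝ) ^ j) * (τ ^ i - ((P * (q : ℤ) ^ j : ℤ) : ℝ) / ((Q * p ^ j : ℕ) : ℝ)) := by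
    rw [hτd, div_pow]
    push_cast
    field_simp
  have hge1 : 1 ≤ (Q : ℝ) * (p : ℝ) ^ j / (q : ℝ) ^ j := by
    rw [one_le_div hqj]
    have h1 : (q : ℝ) ^ j ≤ (p : ℝ) ^ j := pow_le_pow_left₀ (by linarith) (by exact_mod_cast hpq.le) j
    nlinarith
  rw [hid, abs_mul, abs_of_pos (by positivity : 0 < (Q : ℝ) * (p : ℝ) ^ j / (q : ℝ) ^ j)]
  set Δ : ℝ := |τ ^ i - ((P * (q : ℤ) ^ j : ℤ) : ℝ) / ((Q * p ^ j : ℕ) : ℝ)| with hΔ
  have hΔ0 : 0 ≤ Δ := abs_nonneg _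
  have hbc : ((Q * p ^ j : ℕ) : ℝ) = (Q : ℝ) * (p : ℝ) ^ j := by push_cast; ring
  rw [hbc] at hL
  refine le_trans ?_ (le_mul_of_one_le_left hΔ0 hge1)
  have hlog : Real.log (((Q : ℝ) * (p : ℝ) ^ j) ^ r * AA) ≤ (r * (15 + R * Real.log p) + Real.log AA) * K := by
    rw [Real.log_mul (by positivity) (by positivity), Real.log_pow, Real.log_mul (by positivity) (by positivity), Real.log_pow]
    have e2 : Real.log Q ≤ 15 * K := by
      have e3 : (Q : ℝ) ≤ (2 : ℝ) ^ (12 * K + 3) := by exact_mod_cast hQ2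
      refine (Real.log_le_log (by linarith) e3).trans ?_
      rw [Real.log_pow]
      have e5 : ((12 * K + 3 : ℕ) : ℝ) * Real.log 2 ≤ ((12 * K + 3 : ℕ) : ℝ) * 1 :=
        mul_le_mul_of_nonneg_left hl2' (by positivity)
      push_cast at e5 ⊢
      linarith
    have e6 : (j : ℝ) * Real.log p ≤ R * K * Real.log p := mul_le_mul_of_nonneg_right hjR hlp
    have e7 : (r : ℝ) * (Real.log Q + j * Real.log p) ≤ r * (15 * K + R * K * Real.log p) :=
      mul_le_mul_of_nonneg_left (by linarith) (by linarith)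
    have e8 : Real.log AA ≤ Real.log AA * K := le_mul_of_one_le_right hlA hK1
    linarith
  have hexp : ((Q : ℝ) * (p : ℝ) ^ j) ^ r * AA ≤ Real.exp ((r * (15 + R * Real.log p) + Real.log AA) * K) := by
    rw [← Real.exp_log (show 0 < ((Q : ℝ) * (p : ℝ) ^ j) ^ r * AA by positivity)]
    exact Real.exp_le_exp.2 hlog
  have h5 : 1 ≤ ((Q : ℝ) * (p : ℝ) ^ j) ^ r * AA * Δ := by
    have h6 : ((Q : ℝ) * (p : ℝ) ^ j) ^ r * (Δ * A i) ≤ ((Q : ℝ) * (p : ℝ) ^ j) ^ r * (Δ * AA) :=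
      mul_le_mul_of_nonneg_left (mul_le_mul_of_nonneg_left (hAAi i hir) hΔ0) (by positivity)
    linarith
  rw [Real.exp_neg, inv_le_iff_one_le_mul₀ (Real.exp_pos _)]
  refine h5.trans ?_
  rw [mul_comm Δ]
  exact mul_le_mul_of_nonneg_right hexp hΔ0

/-- same generator: Diophantine or with a rational power -/
theorem far_ty {κ : ℕ} (hκ : 1 ≤ κ) {τ : ℝ} {ty : ℕ × ℕ × ℕ} (h : Ty κ τ ty) : ∃ D : ℝ, 0 < D ∧ ∀ K : ℕ, 1 ≤ K → ∀ d : ℕ,
    ¬ ty.1 ∣ d → τ ^ d < 2 ^ (12 * K) → ∀ Q : ℕ, 1 ≤ Q → Q ≤ 2 ^ (12 * K + 3) → ∀ P : ℤ,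
      Real.exp (-(D * (K : ℝ) ^ κ)) ≤ |Q * τ ^ d - P| := by
  obtain ⟨hτ, h1 | h1⟩ := h
  · obtain ⟨D, hD, h2⟩ := Pool.Agent.Helper23.LD3.far_self hτ h1.2
    refine ⟨D, hD, fun K hK d hd => h2 K hK d ?_⟩
    rw [h1.1] at hd
    by_contra h3
    apply hd
    have : d = 0 := by omega
    rw [this]
  · obtain ⟨D, hD, h2⟩ := far_rat hτ h1
    refine ⟨D, hD, fun K hK d hd hdl Q hQ1 hQ2 P => le_trans (Real.exp_le_exp.2 ?_) (h2 K hK d hd hdl Q hQ1 hQ2 P)⟩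
    rw [neg_le_neg_iff]
    refine mul_le_mul_of_nonneg_left ?_ hD.le
    have hK1 : (1 : ℝ) ≤ K := by exact_mod_cast hK
    simpa using pow_le_pow_right₀ hK1 hκ

end Pool.Agent.Helper23.LD4
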