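import Pool.Agent.Helper23.LD4.TT
import Pool.Agent.Helper34.LD4.BadC

/-!
# Block TM2 of LD4: good exponents for a mixed family
-/

set_option autoImplicit false

namespace Pool.Agent.Helper23.LD4

open Set Filter Topology
open Pool.Agent.Helper41.LD (Dioph)
open Pool.Agent.Helper41.LD2 (EqA)
open Pool.Agent.Helper41.LD4 (RatPow RatGen Ty)

theorem good_exponent4 {κ g : ℕ} (hκ : 1 ≤ κ) {τ : ℕ → ℝ} {ty : ℕ → ℕ × ℕ × ℕ} (hτ : ∀ h < g, Ty κ (τ h) (ty h))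
    (hirr : ∀ h < g, ∀ h' < g, h ≠ h' → Irrational (Real.log (τ h) / Real.log (τ h'))) {Q : ℕ} (hQ : 1 ≤ Q) :
    ∃ (C₀ : ℕ) (D : ℝ), 0 < D ∧ ∀ᶠ K : ℕ in atTop, ∃ (Q₀ : ℕ) (ε : ℝ), (Q₀ : ℝ) + 1 ≤ Real.exp (D * (K : ℝ) ^ (2 * κ)) ∧ 0 ≤ ε ∧
      ε ≤ (1 / 2) ^ (12 * K) ∧ ∀ h < g, ∀ e < Q, ∀ u₀ : ℕ, ∃ u : ℕ, u₀ ≤ u ∧ u < u₀ + C₀ * K ∧ u % Q = e ∧
        ∀ h' < g, ∀ u' : ℕ, ¬ (h' = h ∧ u' ≡ u [MOD (ty h).1]) →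
          (1 / 2 : ℝ) ^ (12 * K) < τ h' ^ u' / τ h ^ u → τ h' ^ u' / τ h ^ u < 2 ^ (12 * K) →
          (τ h' ^ u' ≤ τ h ^ u ∧ EqA (τ h ^ u / τ h' ^ u') Q₀ ε) ∨ (τ h ^ u ≤ τ h' ^ u' ∧ EqA (τ h' ^ u' / τ h ^ u) Q₀ ε) :=
  good_exponent4_of_TM1 (fun hκ ht hs ht2 hs2 hirr => Pool.Agent.Helper34.LD4.bad_count4 hκ ht hs ht2 hs2 hirr) hκ hτ hirr hQ

end Pool.Agent.Helper23.LD4
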