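import Pool.Agent.Helper23.LD4.FR

/-!
# Block TM2 of LD4, final choice of the exponent for a mixed family
-/

set_option autoImplicit false

namespace Pool.Agent.Helper23.LD4

open Set Filter Topology
open Pool.Agent.Helper41.LD (Dioph)
open Pool.Agent.Helper41.LD2 (EqA)
open Pool.Agent.Helper23.LD3 (Bad Close eqA_of_far)
open Pool.Agent.Helper41.LD4 (RatPow Ty)

open Classical in
/-- few bad exponents: some exponent of the progression is good -/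
theorem exists_good {g Q K C₀ u₀ e c' : ℕ} (hg : 1 ≤ g) (hQ : 1 ≤ Q) (hK : 1 ≤ K) (hc : 1 ≤ c') (hC₀ : C₀ = 100 * g * c' * Q) (he : e < Q)
    {h : ℕ} (B : ℕ → ℕ → Prop)
    (hB : ∀ h' < g, h' ≠ h → (((Finset.Ico u₀ (u₀ + C₀ * K)).filter fun u => B h' u).card : ℝ) ≤
      max ((c' : ℝ) * K + 1) ((C₀ : ℝ) * K / ((4 * g * Q : ℕ) : ℝ) + 1)) :
    ∃ u : ℕ, u₀ ≤ u ∧ u < u₀ + C₀ * K ∧ u % Q = e ∧ ∀ h' < g, h' ≠ h → ¬ B h' u := by
  by_contra hcon
  push Not at hcon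
  set P : Finset ℕ := (Finset.Ico u₀ (u₀ + C₀ * K)).filter fun u => u % Q = e with hP
  have hPcard : 100 * g * c' * K ≤ P.card := by
    -- the map `i ↦ u₁ + Q i`
    set u₁ : ℕ := u₀ + (e + Q - u₀ % Q) % Q with hu₁
    have hu₁Q : u₁ % Q = e := by
      have hm : u₀ % Q < Q := Nat.mod_lt _ hQ
      rw [hu₁, Nat.add_mod, Nat.mod_mod]
      by_cases hle : u₀ % Q ≤ e
      · have e1 : (e + Q - u₀ % Q) % Q = e - u₀ % Q := by
          have : e + Q - u₀ % Q = (e - u₀ % Q) + Q := by omega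
          rw [this, Nat.add_mod_right, Nat.mod_eq_of_lt (by omega)]
        rw [e1]
        have : u₀ % Q + (e - u₀ % Q) = e := by omega
        rw [this, Nat.mod_eq_of_lt he]
      · have e1 : (e + Q - u₀ % Q) % Q = e + Q - u₀ % Q := Nat.mod_eq_of_lt (by omega)
        rw [e1]
        have : u₀ % Q + (e + Q - u₀ % Q) = e + Q := by omega
        rw [this, Nat.add_mod_right, Nat.mod_eq_of_lt he]
    have hlt : (e + Q - u₀ % Q) % Q < Q := Nat.mod_lt _ hQ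
    have hinj : (Finset.range (100 * g * c' * K)).image (fun i => u₁ + Q * i) ⊆ P := by
      intro u hu
      rw [Finset.mem_image] at hu
      obtain ⟨i, hi, rfl⟩ := hu
      rw [Finset.mem_range] at hi
      rw [hP, Finset.mem_filter, Finset.mem_Ico]
      refine ⟨⟨by omega, ?_⟩, by rw [Nat.add_mul_mod_self_left, hu₁Q]⟩
      have h1 : Q * i + Q ≤ Q * (100 * g * c' * K) := by
        have : Q * (i + 1) ≤ Q * (100 * g * c' * K) := Nat.mul_le_mul_left _ hi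
        rw [Nat.mul_add, Nat.mul_one] at this
        exact this
      have h2 : Q * (100 * g * c' * K) = C₀ * K := by rw [hC₀]; ring
      omega
    calc 100 * g * c' * K = ((Finset.range (100 * g * c' * K)).image (fun i => u₁ + Q * i)).card := by
          rw [Finset.card_image_of_injective, Finset.card_range]
          intro i j hij
          have : Q * i = Q * j := by simpa using hij
          exact Nat.eq_of_mul_eq_mul_left hQ this
      _ ≤ P.card := Finset.card_le_card hinj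
  have hsub : P ⊆ ((Finset.range g).filter fun h' => h' ≠ h).biUnion
      fun h' => (Finset.Ico u₀ (u₀ + C₀ * K)).filter fun u => B h' u := by
    intro u hu
    rw [hP, Finset.mem_filter, Finset.mem_Ico] at hu
    obtain ⟨h', h1, h2, h3⟩ := hcon u hu.1.1 hu.1.2 hu.2
    rw [Finset.mem_biUnion]
    exact ⟨h', Finset.mem_filter.2 ⟨Finset.mem_range.2 h1, h2⟩,
      Finset.mem_filter.2 ⟨Finset.mem_Ico.2 hu.1, h3⟩⟩
  have hg0 : (1 : ℝ) ≤ g := by exact_mod_cast hg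
  have hQ0 : (1 : ℝ) ≤ Q := by exact_mod_cast hQ
  have hK0 : (1 : ℝ) ≤ K := by exact_mod_cast hK
  have hc0 : (1 : ℝ) ≤ c' := by exact_mod_cast hc
  have hcK : (1 : ℝ) ≤ c' * K := by nlinarith
  have hmax : max ((c' : ℝ) * K + 1) ((C₀ : ℝ) * K / ((4 * g * Q : ℕ) : ℝ) + 1) ≤ 51 * (c' * K) := by
    apply max_le
    · linarith
    · rw [hC₀]
      push_cast
      have : 100 * (g : ℝ) * c' * Q * K / (4 * g * Q) = 25 * (c' * K) := by
        field_simp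
        ring
      rw [this]
      linarith
  have hle : (P.card : ℝ) ≤ ∑ h' ∈ (Finset.range g).filter fun h' => h' ≠ h, (51 * ((c' : ℝ) * K)) := by
    have h1 : (P.card : ℝ) ≤ ∑ h' ∈ (Finset.range g).filter fun h' => h' ≠ h,
        (((Finset.Ico u₀ (u₀ + C₀ * K)).filter fun u => B h' u).card : ℝ) := by
      have := (Finset.card_le_card hsub).trans Finset.card_biUnion_le
      exact_mod_cast this
    refine h1.trans (Finset.sum_le_sum fun h' hh' => ?_)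
    rw [Finset.mem_filter, Finset.mem_range] at hh'
    exact (hB h' hh'.1 hh'.2).trans hmax
  rw [Finset.sum_const, nsmul_eq_mul] at hle
  have hcard : (((Finset.range g).filter fun h' => h' ≠ h).card : ℝ) ≤ g := by
    have := Finset.card_filter_le (Finset.range g) (fun h' => h' ≠ h)
    rw [Finset.card_range] at this
    exact_mod_cast this
  have h1 : (100 * (g : ℝ) * c' * K) ≤ P.card := by exact_mod_cast hPcard
  have h2 : (((Finset.range g).filter fun h' => h' ≠ h).card : ℝ) * (51 * (c' * K)) ≤ g * (51 * (c' * K)) :=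
    mul_le_mul_of_nonneg_right hcard (by positivity)
  nlinarith [mul_pos (show (0:ℝ) < g by linarith) (show (0:ℝ) < c' * K by linarith)]


open Classical in
/-- `good_exponent4` from the count of the bad exponents, one constant for all pairs -/
theorem good_exponent_aux {κ g c' : ℕ} (hκ : 1 ≤ κ) (hc : 1 ≤ c') {τ : ℕ → ℝ} {ty : ℕ → ℕ × ℕ × ℕ}
    (hτ : ∀ h < g, Ty κ (τ h) (ty h)) {Q : ℕ} (hQ : 1 ≤ Q)
    (hbc : ∀ h < g, ∀ h' < g, h ≠ h' → ∃ D : ℝ, 0 < D ∧ ∀ᶠ K : ℕ in atTop, ∀ X : ℕ, Real.exp (D * (K : ℝ) ^ (2 * κ)) ≤ X →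
      ∀ u₀ : ℕ, (((Finset.Ico u₀ (u₀ + (100 * g * c' * Q) * K)).filter fun u => Bad (τ h) (τ h') K X u).card : ℝ) ≤
        max ((c' : ℝ) * K + 1) (((100 * g * c' * Q : ℕ) : ℝ) * K / ((4 * g * Q : ℕ) : ℝ) + 1)) :
    ∃ (C₀ : ℕ) (D : ℝ), 0 < D ∧ ∀ᶠ K : ℕ in atTop, ∃ (Q₀ : ℕ) (ε : ℝ), (Q₀ : ℝ) + 1 ≤ Real.exp (D * (K : ℝ) ^ (2 * κ)) ∧ 0 ≤ ε ∧
      ε ≤ (1 / 2) ^ (12 * K) ∧ ∀ h < g, ∀ e < Q, ∀ u₀ : ℕ, ∃ u : ℕ, u₀ ≤ u ∧ u < u₀ + C₀ * K ∧ u % Q = e ∧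
        ∀ h' < g, ∀ u' : ℕ, ¬ (h' = h ∧ u' ≡ u [MOD (ty h).1]) →
          (1 / 2 : ℝ) ^ (12 * K) < τ h' ^ u' / τ h ^ u → τ h' ^ u' / τ h ^ u < 2 ^ (12 * K) →
          (τ h' ^ u' ≤ τ h ^ u ∧ EqA (τ h ^ u / τ h' ^ u') Q₀ ε) ∨ (τ h ^ u ≤ τ h' ^ u' ∧ EqA (τ h' ^ u' / τ h ^ u) Q₀ ε) := by
  have h1 : ∀ h : ℕ, ∃ D : ℝ, 0 < D ∧ (h < g → ∀ K : ℕ, 1 ≤ K → ∀ d : ℕ,
    ¬ (ty h).1 ∣ d → τ h ^ d < 2 ^ (12 * K) → ∀ q : ℕ, 1 ≤ q → q ≤ 2 ^ (12 * K + 3) → ∀ p : ℤ,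
      Real.exp (-(D * (K : ℝ) ^ κ)) ≤ |q * τ h ^ d - p|) := by
    intro h
    by_cases hh : h < g
    · obtain ⟨D, hD, h2⟩ := far_ty hκ (hτ h hh)
      exact ⟨D, hD, fun _ => h2⟩
    · exact ⟨1, one_pos, fun h2 => absurd h2 hh⟩
  choose Ds hDs hself using h1
  have h2 : ∀ h h' : ℕ, ∃ D : ℝ, 0 < D ∧ ∀ᶠ K : ℕ in atTop, (h < g → h' < g → h ≠ h' → ∀ X : ℕ,
      Real.exp (D * (K : ℝ) ^ (2 * κ)) ≤ X →
      ∀ u₀ : ℕ, (((Finset.Ico u₀ (u₀ + (100 * g * c' * Q) * K)).filter fun u => Bad (τ h) (τ h') K X u).card : ℝ) ≤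
        max ((c' : ℝ) * K + 1) (((100 * g * c' * Q : ℕ) : ℝ) * K / ((4 * g * Q : ℕ) : ℝ) + 1)) := by
    intro h h'
    by_cases hh : h < g ∧ h' < g ∧ h ≠ h'
    · obtain ⟨D, hD, h3⟩ := hbc h hh.1 h' hh.2.1 hh.2.2
      exact ⟨D, hD, h3.mono fun K hK _ _ _ => hK⟩
    · exact ⟨1, one_pos, Eventually.of_forall fun K a b c => absurd ⟨a, b, c⟩ hh⟩
  choose Dp hDp hpair using h2
  set D₁ : ℝ := 1 + (∑ h ∈ Finset.range g, Ds h + ∑ h ∈ Finset.range g, ∑ h' ∈ Finset.range g, Dp h h') with hD₁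
  have hDs1 : ∀ h < g, Ds h ≤ D₁ - 1 := by
    intro h hh
    have h3 : Ds h ≤ ∑ h ∈ Finset.range g, Ds h :=
      Finset.single_le_sum (fun i _ => (hDs i).le) (Finset.mem_range.2 hh)
    have h4 : 0 ≤ ∑ h ∈ Finset.range g, ∑ h' ∈ Finset.range g, Dp h h' :=
      Finset.sum_nonneg fun i _ => Finset.sum_nonneg fun j _ => (hDp i j).le
    rw [hD₁]
    linarith
  have hDp1 : ∀ h < g, ∀ h' < g, Dp h h' ≤ D₁ := by
    intro h hh h' hh'
    have h3 : 0 ≤ ∑ h ∈ Finset.range g, Ds h := Finset.sum_nonneg fun i _ => (hDs i).le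
    have h4 : Dp h h' ≤ ∑ h' ∈ Finset.range g, Dp h h' :=
      Finset.single_le_sum (f := fun h' => Dp h h') (fun i _ => (hDp h i).le) (Finset.mem_range.2 hh')
    have h5 : ∑ h' ∈ Finset.range g, Dp h h' ≤ ∑ h ∈ Finset.range g, ∑ h' ∈ Finset.range g, Dp h h' :=
      Finset.single_le_sum (f := fun h => ∑ h' ∈ Finset.range g, Dp h h')
        (fun i _ => Finset.sum_nonneg fun j _ => (hDp i j).le) (Finset.mem_range.2 hh)
    rw [hD₁]
    linarith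
  have hD₁1 : 1 ≤ D₁ := by
    have h3 : 0 ≤ ∑ h ∈ Finset.range g, Ds h := Finset.sum_nonneg fun i _ => (hDs i).le
    have h4 : 0 ≤ ∑ h ∈ Finset.range g, ∑ h' ∈ Finset.range g, Dp h h' :=
      Finset.sum_nonneg fun i _ => Finset.sum_nonneg fun j _ => (hDp i j).le
    rw [hD₁]
    linarith
  refine ⟨100 * g * c' * Q, D₁ + 17, by linarith, ?_⟩
  have hev : ∀ᶠ K : ℕ in atTop, ∀ h ∈ Finset.range g, ∀ h' ∈ Finset.range g, (h < g → h' < g → h ≠ h' → ∀ X : ℕ,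
      Real.exp (Dp h h' * (K : ℝ) ^ (2 * κ)) ≤ X →
      ∀ u₀ : ℕ, (((Finset.Ico u₀ (u₀ + (100 * g * c' * Q) * K)).filter fun u => Bad (τ h) (τ h') K X u).card : ℝ) ≤
        max ((c' : ℝ) * K + 1) (((100 * g * c' * Q : ℕ) : ℝ) * K / ((4 * g * Q : ℕ) : ℝ) + 1)) :=
    (Filter.eventually_all_finset _).2 fun h _ => (Filter.eventually_all_finset _).2 fun h' _ => hpair h h'
  filter_upwards [hev, eventually_ge_atTop 1] with K hKev hK
  have hK1 : (1 : ℝ) ≤ K := by exact_mod_cast hK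
  have hKκ : (K : ℝ) ≤ (K : ℝ) ^ (2 * κ) := by
    simpa using pow_le_pow_right₀ hK1 (show 1 ≤ 2 * κ by omega)
  have hKκ' : (K : ℝ) ^ κ ≤ (K : ℝ) ^ (2 * κ) := pow_le_pow_right₀ hK1 (by omega)
  set T : ℝ := (K : ℝ) ^ (2 * κ) with hT
  have hT1 : 1 ≤ T := hK1.trans hKκ
  set X : ℕ := ⌈Real.exp (D₁ * T)⌉₊ with hXd
  have hX1 : 1 ≤ X := Nat.one_le_ceil_iff.2 (Real.exp_pos _)
  have hXl : Real.exp (D₁ * T) ≤ X := Nat.le_ceil _
  have hXu : (X : ℝ) ≤ 2 * Real.exp (D₁ * T) := by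
    have h1 := (Nat.ceil_lt_add_one (Real.exp_pos (D₁ * T)).le).le
    have h2 := Real.one_le_exp (show 0 ≤ D₁ * T by positivity)
    linarith
  set H : ℕ := 2 ^ (12 * K + 3) with hH
  have hH1 : 1 ≤ H := Nat.one_le_two_pow
  have hH0 : (0 : ℝ) < H := by exact_mod_cast hH1
  have hl2' : Real.log 2 ≤ 1 := by
    have := Real.log_two_lt_d9
    linarith
  have hHe : (H : ℝ) ≤ Real.exp (15 * T) := by
    rw [← Real.exp_log hH0]
    apply Real.exp_le_exp.2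
    rw [hH]
    push_cast
    rw [Real.log_pow]
    have h2 : (((12 * K + 3 : ℕ) : ℝ)) * Real.log 2 ≤ ((12 * K + 3 : ℕ) : ℝ) * 1 :=
      mul_le_mul_of_nonneg_left hl2' (by positivity)
    push_cast at h2 ⊢
    linarith
  refine ⟨X * H, 5 / H, ?_, by positivity, ?_, ?_⟩
  · have h4 : (4 : ℝ) ≤ Real.exp 2 := by
      have h5 : Real.exp 2 = Real.exp 1 * Real.exp 1 := by rw [← Real.exp_add]; norm_num
      have h6 := Real.exp_one_gt_d9
      rw [h5]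
      nlinarith
    have h7 : Real.exp 2 ≤ Real.exp (2 * T) := Real.exp_le_exp.2 (by linarith)
    have h8 : ((X * H : ℕ) : ℝ) + 1 ≤ 2 * (X * H) := by
      have : (1 : ℝ) ≤ X * H := by exact_mod_cast Nat.mul_pos hX1 hH1
      push_cast
      linarith
    refine h8.trans ?_
    have h9 : (X : ℝ) * H ≤ (2 * Real.exp (D₁ * T)) * Real.exp (15 * T) :=
      mul_le_mul hXu hHe hH0.le (by positivity)
    have h10 : 2 * ((2 * Real.exp (D₁ * T)) * Real.exp (15 * T))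
        ≤ Real.exp (2 * T) * (Real.exp (D₁ * T) * Real.exp (15 * T)) := by
      have : 0 ≤ Real.exp (D₁ * T) * Real.exp (15 * T) := by positivity
      nlinarith
    have h11 : Real.exp (2 * T) * (Real.exp (D₁ * T) * Real.exp (15 * T)) = Real.exp ((D₁ + 17) * T) := by
      rw [← Real.exp_add, ← Real.exp_add]
      congr 1
      ring
    linarith
  · rw [div_le_iff₀ hH0, hH]
    push_cast
    rw [pow_add, ← mul_assoc, ← mul_pow]
    norm_num
  · intro h hh e he u₀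
    have hg : 1 ≤ g := by omega
    obtain ⟨u, hu1, hu2, hu3, hu4⟩ := exists_good (C₀ := 100 * g * c' * Q) (u₀ := u₀) (h := h) hg hQ hK hc rfl he
      (fun h' u => Bad (τ h) (τ h') K X u) (fun h' hh' hne => hKev h (Finset.mem_range.2 hh) h' (Finset.mem_range.2 hh')
        hh hh' (Ne.symm hne) X
        ((Real.exp_le_exp.2 (mul_le_mul_of_nonneg_right (hDp1 h hh h' hh') (by positivity))).trans hXl) u₀)
    refine ⟨u, hu1, hu2, hu3, ?_⟩
    intro h' hh' u' hne hlo hhi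
    have hτ0 : 0 < τ h := one_pos.trans (hτ h hh).1
    have hτ0' : 0 < τ h' := one_pos.trans (hτ h' hh').1
    have hp1 : 0 < τ h ^ u := pow_pos hτ0 u
    have hp2 : 0 < τ h' ^ u' := pow_pos hτ0' u'
    by_cases hhh : h' = h
    · subst hhh
      have hmod : ¬ u' ≡ u [MOD (ty h').1] := fun h3 => hne ⟨rfl, h3⟩
      have huu : u' ≠ u := fun h3 => hmod (by rw [h3])
      have hfar : ∀ d : ℕ, ¬ (ty h').1 ∣ d → τ h' ^ d < 2 ^ (12 * K) → EqA (τ h' ^ d) (X * H) (5 / H) := by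
        intro d hd hdl
        apply eqA_of_far hH1 hX1
        intro q hq1 hq2 p
        refine lt_of_lt_of_le ?_ (hself h' hh K hK d hd hdl q hq1 hq2 p)
        rw [Real.exp_neg, ← one_div]
        apply one_div_lt_one_div_of_lt (Real.exp_pos _)
        have h3 : Ds h' * (K : ℝ) ^ κ ≤ D₁ * T := by
          have h4 : Ds h' ≤ D₁ := by linarith [hDs1 h' hh]
          exact mul_le_mul h4 hKκ' (by positivity) (by linarith)
        have h5 := Real.exp_le_exp.2 h3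
        linarith
      rcases Nat.lt_or_gt_of_ne huu with hlt | hgt
      · left
        refine ⟨pow_le_pow_right₀ (hτ h' hh).1.le hlt.le, ?_⟩
        have h3 : τ h' ^ u / τ h' ^ u' = τ h' ^ (u - u') := by
          rw [div_eq_iff hp2.ne', ← pow_add]
          congr 1
          omega
        rw [h3]
        apply hfar (u - u') (fun h5 => hmod ((Nat.modEq_iff_dvd' hlt.le).2 h5))
        rw [← h3, ← one_div_div]
        rw [div_lt_iff₀ (by positivity)]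
        have h4 : (2 : ℝ) ^ (12 * K) * (1 / 2) ^ (12 * K) = 1 := by
          rw [← mul_pow]
          norm_num
        calc (1 : ℝ) = 2 ^ (12 * K) * (1 / 2) ^ (12 * K) := h4.symm
          _ < 2 ^ (12 * K) * (τ h' ^ u' / τ h' ^ u) := mul_lt_mul_of_pos_left hlo (by positivity)
      · right
        refine ⟨pow_le_pow_right₀ (hτ h' hh).1.le hgt.le, ?_⟩
        have h3 : τ h' ^ u' / τ h' ^ u = τ h' ^ (u' - u) := by
          rw [div_eq_iff hp1.ne', ← pow_add]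
          congr 1
          omega
        rw [h3] at hhi ⊢
        exact hfar (u' - u) (fun h5 => hmod ((Nat.modEq_iff_dvd' hgt.le).2 h5).symm) hhi
    · have hnb := hu4 h' hh' hhh
      have hfar : EqA (max (τ h' ^ u' / τ h ^ u) (τ h ^ u / τ h' ^ u')) (X * H) (5 / H) := by
        apply eqA_of_far hH1 hX1
        intro q hq1 hq2 p
        by_contra hcl
        push Not at hcl
        exact hnb ⟨u', hlo, hhi, q, hq1, hq2, p, hcl⟩
      rcases le_total (τ h' ^ u') (τ h ^ u) with hle | hle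
      · left
        refine ⟨hle, ?_⟩
        have h3 : max (τ h' ^ u' / τ h ^ u) (τ h ^ u / τ h' ^ u') = τ h ^ u / τ h' ^ u' := by
          apply max_eq_right
          have h4 : τ h' ^ u' / τ h ^ u ≤ 1 := (div_le_one hp1).2 hle
          have h5 : 1 ≤ τ h ^ u / τ h' ^ u' := (one_le_div hp2).2 hle
          linarith
        rwa [h3] at hfar
      · right
        refine ⟨hle, ?_⟩
        have h3 : max (τ h' ^ u' / τ h ^ u) (τ h ^ u / τ h' ^ u') = τ h' ^ u' / τ h ^ u := by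
          apply max_eq_left
          have h4 : τ h ^ u / τ h' ^ u' ≤ 1 := (div_le_one hp2).2 hle
          have h5 : 1 ≤ τ h' ^ u' / τ h ^ u := (one_le_div hp1).2 hle
          linarith
        rwa [h3] at hfar


open Classical in
/-- TM2: from the statement of TM1 -/
theorem good_exponent4_of {κ g : ℕ} (hκ : 1 ≤ κ) {τ : ℕ → ℝ} {ty : ℕ → ℕ × ℕ × ℕ}
    (hτ : ∀ h < g, Ty κ (τ h) (ty h)) {Q : ℕ} (hQ : 1 ≤ Q)
    (hbc : ∀ h < g, ∀ h' < g, h ≠ h' → ∃ c' : ℕ, 1 ≤ c' ∧ ∀ C V : ℕ, 1 ≤ C → 1 ≤ V → ∃ D : ℝ, 0 < D ∧ ∀ᶠ K : ℕ in atTop, ∀ X : ℕ,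
      Real.exp (D * (K : ℝ) ^ (2 * κ)) ≤ X → ∀ u₀ : ℕ,
      (((Finset.Ico u₀ (u₀ + C * K)).filter fun u => Bad (τ h) (τ h') K X u).card : ℝ) ≤ max (c' * (K : ℝ) + 1) ((C : ℝ) * K / V + 1)) :
    ∃ (C₀ : ℕ) (D : ℝ), 0 < D ∧ ∀ᶠ K : ℕ in atTop, ∃ (Q₀ : ℕ) (ε : ℝ), (Q₀ : ℝ) + 1 ≤ Real.exp (D * (K : ℝ) ^ (2 * κ)) ∧ 0 ≤ ε ∧
      ε ≤ (1 / 2) ^ (12 * K) ∧ ∀ h < g, ∀ e < Q, ∀ u₀ : ℕ, ∃ u : ℕ, u₀ ≤ u ∧ u < u₀ + C₀ * K ∧ u % Q = e ∧
        ∀ h' < g, ∀ u' : ℕ, ¬ (h' = h ∧ u' ≡ u [MOD (ty h).1]) →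
          (1 / 2 : ℝ) ^ (12 * K) < τ h' ^ u' / τ h ^ u → τ h' ^ u' / τ h ^ u < 2 ^ (12 * K) →
          (τ h' ^ u' ≤ τ h ^ u ∧ EqA (τ h ^ u / τ h' ^ u') Q₀ ε) ∨ (τ h ^ u ≤ τ h' ^ u' ∧ EqA (τ h' ^ u' / τ h ^ u) Q₀ ε) := by
  have h2 : ∀ h h' : ℕ, ∃ c' : ℕ, (h < g → h' < g → h ≠ h' → ∀ C V : ℕ, 1 ≤ C → 1 ≤ V → ∃ D : ℝ, 0 < D ∧ ∀ᶠ K : ℕ in atTop, ∀ X : ℕ,
      Real.exp (D * (K : ℝ) ^ (2 * κ)) ≤ X → ∀ u₀ : ℕ,
      (((Finset.Ico u₀ (u₀ + C * K)).filter fun u => Bad (τ h) (τ h') K X u).card : ℝ) ≤ max (c' * (K : ℝ) + 1) ((C : ℝ) * K / V + 1)) := by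
    intro h h'
    by_cases hh : h < g ∧ h' < g ∧ h ≠ h'
    · obtain ⟨c', _, h3⟩ := hbc h hh.1 h' hh.2.1 hh.2.2
      exact ⟨c', fun _ _ _ => h3⟩
    · exact ⟨0, fun a b c => absurd ⟨a, b, c⟩ hh⟩
  choose cc hcc using h2
  set c' : ℕ := 1 + ∑ h ∈ Finset.range g, ∑ h' ∈ Finset.range g, cc h h' with hc'
  have hc1 : 1 ≤ c' := by omega
  refine good_exponent_aux hκ hc1 hτ hQ fun h hh h' hh' hne => ?_
  have hg : 1 ≤ g := by omega
  have hle : cc h h' ≤ c' := by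
    have h4 : cc h h' ≤ ∑ h' ∈ Finset.range g, cc h h' :=
      Finset.single_le_sum (f := fun h' => cc h h') (fun _ _ => Nat.zero_le _) (Finset.mem_range.2 hh')
    have h5 : ∑ h' ∈ Finset.range g, cc h h' ≤ ∑ h ∈ Finset.range g, ∑ h' ∈ Finset.range g, cc h h' :=
      Finset.single_le_sum (f := fun h => ∑ h' ∈ Finset.range g, cc h h') (fun _ _ => Nat.zero_le _) (Finset.mem_range.2 hh)
    omega
  obtain ⟨D, hD, h3⟩ := hcc h h' hh hh' hne (100 * g * c' * Q) (4 * g * Q)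
    (Nat.mul_pos (Nat.mul_pos (Nat.mul_pos (by norm_num) hg) hc1) hQ) (Nat.mul_pos (Nat.mul_pos (by norm_num) hg) hQ)
  refine ⟨D, hD, h3.mono fun K hK X hX u₀ => (hK X hX u₀).trans (max_le_max ?_ le_rfl)⟩
  have : (cc h h' : ℝ) ≤ c' := by exact_mod_cast hle
  have hK0 : (0 : ℝ) ≤ K := by positivity
  nlinarith

end Pool.Agent.Helper23.LD4
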