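import Pool.Agent.Helper23.LD4.TM

/-!
# Block TM2 of LD4: the choice of the test times for a mixed family, from the count of the bad exponents
-/

set_option autoImplicit false

namespace Pool.Agent.Helper23.LD4

open Set Filter Topology
open Pool.Agent.Helper41.LD (Dioph)
open Pool.Agent.Helper41.LD2 (EqA)
open Pool.Agent.Helper41.LD4 (RatPow RatGen Ty)

theorem ratPow_of_gen {t : ℝ} {r p q : ℕ} (h : RatGen t r p q) : RatPow t := by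
  refine ⟨r, h.hr, (p : ℚ) / q, ?_⟩
  rw [h.pow]
  push_cast
  rfl

theorem dioph_or_ratPow {κ : ℕ} {t : ℝ} {ty : ℕ × ℕ × ℕ} (h : Ty κ t ty) : Dioph t κ ∨ RatPow t := by
  obtain ⟨_, h1 | h1⟩ := h
  · exact Or.inl h1.2
  · exact Or.inr (ratPow_of_gen h1)

open Classical in
/-- TM2 with the statement of TM1 as a hypothesis -/
theorem good_exponent4_of_TM1
    (hTM : ∀ {t s : ℝ} {κ : ℕ}, 1 ≤ κ → 1 < t → 1 < s → (Dioph t κ ∨ RatPow t) → (Dioph s κ ∨ RatPow s) →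
      Irrational (Real.log t / Real.log s) →
      ∃ c' : ℕ, 1 ≤ c' ∧ ∀ C V : ℕ, 1 ≤ C → 1 ≤ V → ∃ D : ℝ, 0 < D ∧ ∀ᶠ K : ℕ in atTop, ∀ X : ℕ, Real.exp (D * (K : ℝ) ^ (2 * κ)) ≤ X → ∀ u₀ : ℕ,
        (((Finset.Ico u₀ (u₀ + C * K)).filter fun u => Pool.Agent.Helper23.LD3.Bad t s K X u).card : ℝ) ≤ max (c' * (K : ℝ) + 1) ((C : ℝ) * K / V + 1))
    {κ g : ℕ} (hκ : 1 ≤ κ) {τ : ℕ → ℝ} {ty : ℕ → ℕ × ℕ × ℕ} (hτ : ∀ h < g, Ty κ (τ h) (ty h))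
    (hirr : ∀ h < g, ∀ h' < g, h ≠ h' → Irrational (Real.log (τ h) / Real.log (τ h'))) {Q : ℕ} (hQ : 1 ≤ Q) :
    ∃ (C₀ : ℕ) (D : ℝ), 0 < D ∧ ∀ᶠ K : ℕ in atTop, ∃ (Q₀ : ℕ) (ε : ℝ), (Q₀ : ℝ) + 1 ≤ Real.exp (D * (K : ℝ) ^ (2 * κ)) ∧ 0 ≤ ε ∧
      ε ≤ (1 / 2) ^ (12 * K) ∧ ∀ h < g, ∀ e < Q, ∀ u₀ : ℕ, ∃ u : ℕ, u₀ ≤ u ∧ u < u₀ + C₀ * K ∧ u % Q = e ∧
        ∀ h' < g, ∀ u' : ℕ, ¬ (h' = h ∧ u' ≡ u [MOD (ty h).1]) →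
          (1 / 2 : ℝ) ^ (12 * K) < τ h' ^ u' / τ h ^ u → τ h' ^ u' / τ h ^ u < 2 ^ (12 * K) →
          (τ h' ^ u' ≤ τ h ^ u ∧ EqA (τ h ^ u / τ h' ^ u') Q₀ ε) ∨ (τ h ^ u ≤ τ h' ^ u' ∧ EqA (τ h' ^ u' / τ h ^ u) Q₀ ε) :=
  good_exponent4_of hκ hτ hQ fun h hh h' hh' hne =>
    hTM hκ (hτ h hh).1 (hτ h' hh').1 (dioph_or_ratPow (hτ h hh)) (dioph_or_ratPow (hτ h' hh')) (hirr h hh h' hh' hne)

end Pool.Agent.Helper23.LD4
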